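import Pool.Agent.P.MP_fc6a29_co.Classify

set_option autoImplicit false

namespace Pool.Agent.Results.MP_fc6a29_co.ExtremalGraphs

open Pool.Agent.P.MP_fc6a29_co

/-- The extremal 3-graphs without tight 5-cycle on `n ≥ 10 ^ 24` vertices: all triples with two
vertices in a part `A`, a largest linear 3-graph inside `A`, an extremal 3-graph outside `A`, and
the size of `A` chosen optimally. -/
theorem result (n : ℕ) (hn : 10 ^ 24 ≤ n) (H : Finset (Finset (Fin n)))
    (h3 : ∀ e ∈ H, e.card = 3) :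
    (C5Free H ∧ H.card = exC5 n) ↔ ∃ A : Finset (Fin n), A.Nonempty ∧
      (∀ e : Finset (Fin n), e.card = 3 → (e ∩ A).card = 2 → e ∈ H) ∧
      (∀ e ∈ H, (e ∩ A).card ≠ 1) ∧
      (Linear (H.filter (· ⊆ A)) ∧ (H.filter (· ⊆ A)).card = pack A.card) ∧
      (C5Free (H.filter (· ⊆ Aᶜ)) ∧ (H.filter (· ⊆ Aᶜ)).card = exC5 (n - A.card)) ∧
      ∀ a : ℕ, 1 ≤ a → a ≤ n → a.choose 2 * (n - a) + pack a + exC5 (n - a) ≤
        A.card.choose 2 * (n - A.card) + pack A.card + exC5 (n - A.card) :=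
  classify hn h3

end Pool.Agent.Results.MP_fc6a29_co.ExtremalGraphs
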